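import Mathlib.Topology.Sheaves.Presheaf
import Mathlib.Tactic.ENatToNat
import Mathlib.Tactic.Monotonicity.Lemmas
import Mathlib.Algebra.Order.Ring.Star
import Mathlib.GroupTheory.Perm.ViaEmbedding
import Mathlib.Analysis.Normed.Order.Lattice
import Mathlib.Topology.Algebra.InfiniteSum.Real
import Mathlib.Algebra.Order.Star.Real
import Mathlib.Data.Finset.Functor
import Mathlib.Order.CompletePartialOrder
import Mathlib.RingTheory.WittVector.IsPoly
import Mathlib.Tactic.Polynomial.Basic
import Mathlib.Tactic.ReduceModChar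

/-!
# General lemmas: Følner sets, bounded orbits, bounded harmonic functions
-/

set_option autoImplicit false

open Filter Topology Function
open scoped Pointwise

namespace Pool.Agent.MP_684c87_al

/-- A Følner net gives an invariant finitely additive probability measure. -/
theorem mean_of_folner {G : Type} [Group G] [DecidableEq G] {ι : Type} (l : Filter ι) [l.NeBot]
    (F : ι → Finset G) (hne : ∀ i, (F i).Nonempty)
    (h : ∀ g : G, Tendsto (fun i => ((((F i).image (g * ·)) \ F i).card : ℝ) / (F i).card) l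
      (𝓝 0)) :
    ∃ m : Set G → ℝ, (∀ A, 0 ≤ m A) ∧ m Set.univ = 1 ∧
      (∀ A B, Disjoint A B → m (A ∪ B) = m A + m B) ∧ ∀ (g : G) (A : Set G), m (g • A) = m A := by
  classical
  let U := Ultrafilter.of l
  have hU : (U : Filter ι) ≤ l := Ultrafilter.of_le l
  let d : ι → Set G → ℝ := fun i A => (((F i).filter (· ∈ A)).card : ℝ) / (F i).card
  have hpos : ∀ i, (0 : ℝ) < (F i).card := fun i => by exact_mod_cast (hne i).card_pos
  have hd : ∀ i A, d i A ∈ Set.Icc (0 : ℝ) 1 := fun i A =>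
    ⟨by positivity, (div_le_one (hpos i)).2 (by exact_mod_cast Finset.card_filter_le _ _)⟩
  have hex : ∀ A, ∃ x, Tendsto (fun i => d i A) U (𝓝 x) := fun A => by
    obtain ⟨x, -, hx⟩ := isCompact_Icc.ultrafilter_le_nhds' (U.map fun i => d i A)
      (mem_map.2 (Eventually.of_forall fun i => hd i A))
    exact ⟨x, hx⟩
  choose m hm using hex
  have hle : ∀ (g : G) (A : Set G), m (g • A) ≤ m A := fun g A => by
    have h1 := (hm A).add ((h g⁻¹).mono_left hU)
    rw [add_zero] at h1
    refine le_of_tendsto_of_tendsto' (hm _) h1 fun i => ?_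
    simp only [d]
    rw [← add_div]
    refine div_le_div_of_nonneg_right ?_ (hpos i).le
    have h2 : ((F i).filter (· ∈ g • A)).card ≤ ((F i).filter (· ∈ A)).card +
        (((F i).image (g⁻¹ * ·)) \ F i).card := by
      rw [← Finset.card_image_of_injective ((F i).filter (· ∈ g • A)) (mul_right_injective g⁻¹)]
      refine (Finset.card_le_card ?_).trans (Finset.card_union_le _ _)
      intro x hx
      obtain ⟨y, hy, rfl⟩ := Finset.mem_image.1 hx
      obtain ⟨hy1, hy2⟩ := Finset.mem_filter.1 hy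
      by_cases hx' : g⁻¹ * y ∈ F i
      · exact Finset.mem_union_left _ (Finset.mem_filter.2
          ⟨hx', Set.mem_smul_set_iff_inv_smul_mem.1 hy2⟩)
      · exact Finset.mem_union_right _ (Finset.mem_sdiff.2 ⟨Finset.mem_image_of_mem _ hy1, hx'⟩)
    exact_mod_cast h2
  refine ⟨m, fun A => ge_of_tendsto' (hm A) fun i => (hd i A).1, ?_, fun A B hAB => ?_,
    fun g A => le_antisymm (hle g A) ?_⟩
  · refine tendsto_nhds_unique (hm _) ?_
    have : (fun i => d i Set.univ) = fun _ => 1 := funext fun i => by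
      simp [d, div_self (hpos i).ne']
    rw [this]
    exact tendsto_const_nhds
  · refine tendsto_nhds_unique (hm _) ?_
    have : (fun i => d i (A ∪ B)) = fun i => d i A + d i B := funext fun i => by
      simp only [d]
      rw [← add_div, ← Nat.cast_add, ← Finset.card_union_of_disjoint, ← Finset.filter_or]
      · simp only [Set.mem_union]
      · exact Finset.disjoint_filter.2 fun x _ h1 h2 => Set.disjoint_left.1 hAB h1 h2
    rw [this]
    exact (hm A).add (hm B)
  · have := hle g⁻¹ (g • A)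
    rwa [inv_smul_smul] at this

/-- The lattice `ℤ⁵`. -/
abbrev V : Type := Fin 5 → ℤ

/-- The box `[0, n]⁵`. -/
noncomputable def box (n : ℕ) : Finset V :=
  Fintype.piFinset fun _ => Finset.Ico (0 : ℤ) ((n : ℤ) + 1)

lemma card_box (n : ℕ) : (box n).card = (n + 1) ^ 5 := by
  simp [box, Fintype.card_piFinset]

lemma tendsto_box (t : V) :
    Tendsto (fun n : ℕ => ((((box n).image (t + ·)) \ box n).card : ℝ) / (box n).card) atTop
      (𝓝 0) := by
  obtain ⟨T, hT⟩ : ∃ T : ℕ, ∀ j, |t j| ≤ T :=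
    ⟨∑ j, (t j).natAbs, fun j => by
      rw [Int.abs_eq_natAbs]
      exact_mod_cast Finset.single_le_sum (f := fun j => (t j).natAbs) (fun _ _ => Nat.zero_le _)
        (Finset.mem_univ j)⟩
  have hb : ∀ n : ℕ, ((((box n).image (t + ·)) \ box n).card : ℝ) / (box n).card ≤
      (1 + 2 * T / ((n : ℝ) + 1)) ^ 5 - 1 := fun n => by
    let B : Finset V := Fintype.piFinset fun _ => Finset.Ico (-(T : ℤ)) ((n : ℤ) + 1 + T)
    have hB : B.card = (n + 1 + 2 * T) ^ 5 := by
      have : ((n : ℤ) + 1 + T - -(T : ℤ)).toNat = n + 1 + 2 * T := by omega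
      simp only [B, Fintype.card_piFinset, Int.card_Ico, this]
      simp
    have h1 : box n ⊆ B := Fintype.piFinset_subset _ _ fun _ =>
      Finset.Ico_subset_Ico (by omega) (by omega)
    have h2 : (box n).image (t + ·) ⊆ B := by
      intro x hx
      obtain ⟨y, hy, rfl⟩ := Finset.mem_image.1 hx
      refine Fintype.mem_piFinset.2 fun j => ?_
      have h3 := Finset.mem_Ico.1 (Fintype.mem_piFinset.1 hy j)
      have h4 := abs_le.1 (hT j)
      simp only [Finset.mem_Ico, Pi.add_apply]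
      omega
    have h3 : (((box n).image (t + ·)) \ box n).card + (n + 1) ^ 5 ≤ (n + 1 + 2 * T) ^ 5 := by
      rw [← hB, ← card_box, ← Finset.card_sdiff_add_card_eq_card h1]
      exact Nat.add_le_add_right (Finset.card_le_card (Finset.sdiff_subset_sdiff h2 le_rfl)) _
    have h4 : ((((box n).image (t + ·)) \ box n).card : ℝ) + ((n : ℝ) + 1) ^ 5 ≤
        ((n : ℝ) + 1 + 2 * T) ^ 5 := by exact_mod_cast h3
    have hn : (0 : ℝ) < (n : ℝ) + 1 := by positivity
    rw [card_box, div_le_iff₀ (by positivity)]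
    have e : ((1 + 2 * T / ((n : ℝ) + 1)) ^ 5 - 1) * (((n + 1) ^ 5 : ℕ) : ℝ) =
        ((n : ℝ) + 1 + 2 * T) ^ 5 - ((n : ℝ) + 1) ^ 5 := by
      push_cast
      field_simp
    rw [e]
    linarith
  refine squeeze_zero (fun n => by positivity) hb ?_
  have h1 : Tendsto (fun n : ℕ => 2 * (T : ℝ) / ((n : ℝ) + 1)) atTop (𝓝 0) :=
    Tendsto.div_atTop tendsto_const_nhds
      (tendsto_atTop_add_const_right _ _ tendsto_natCast_atTop_atTop)
  have h2 := ((tendsto_const_nhds (x := (1 : ℝ))).add h1).pow 5 |>.sub_const 1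
  simpa using h2

/-- An extension of a locally finite group by `ℤ⁵` is amenable. -/
theorem mean_of_split {G : Type} [Group G] (φ : G → V) (hφ : ∀ g h, φ (g * h) = φ g + φ h)
    (σ : V → G) (hφσ : ∀ t, φ (σ t) = t)
    (hloc : ∀ S : Finset G, (∀ s ∈ S, φ s = 0) →
      ((Subgroup.closure (S : Set G) : Subgroup G) : Set G).Finite) :
    ∃ m : Set G → ℝ, (∀ A, 0 ≤ m A) ∧ m Set.univ = 1 ∧
      (∀ A B, Disjoint A B → m (A ∪ B) = m A + m B) ∧ ∀ (g : G) (A : Set G), m (g • A) = m A := by
  classical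
  have hφ1 : φ 1 = 0 := by
    have := hφ 1 1
    rw [mul_one] at this
    exact left_eq_add.1 this
  have hφi : ∀ g, φ g⁻¹ = -φ g := fun g => by
    have := hφ g⁻¹ g
    rw [inv_mul_cancel, hφ1] at this
    exact eq_neg_of_add_eq_zero_left this.symm
  let gens : Finset G × ℕ → Finset G := fun i =>
    (i.1 ×ˢ box i.2).image fun q => (σ (φ q.1 + q.2))⁻¹ * q.1 * σ q.2
  have hgens : ∀ i, ∀ s ∈ gens i, φ s = 0 := fun i s hs => by
    obtain ⟨q, -, rfl⟩ := Finset.mem_image.1 hs
    rw [hφ, hφ, hφi, hφσ, hφσ]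
    abel
  let K : Finset G × ℕ → Finset G := fun i => (hloc _ (hgens i)).toFinset
  have hK : ∀ i k, k ∈ K i ↔ k ∈ Subgroup.closure (gens i : Set G) := fun i k => by simp [K]
  have hKφ : ∀ i, ∀ k ∈ K i, φ k = 0 := fun i k hk => by
    rw [hK] at hk
    induction hk using Subgroup.closure_induction with
    | mem x hx => exact hgens i x hx
    | one => exact hφ1
    | mul x y _ _ h1 h2 => rw [hφ, h1, h2, add_zero]
    | inv x _ h1 => rw [hφi, h1, neg_zero]
  let F : Finset G × ℕ → Finset G := fun i => (box i.2 ×ˢ K i).image fun q => σ q.1 * q.2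
  have hcard : ∀ i, (F i).card = (box i.2).card * (K i).card := fun i => by
    rw [← Finset.card_product]
    refine Finset.card_image_of_injOn ?_
    rintro ⟨b, k⟩ hq ⟨b', k'⟩ hq' h
    have h1 := hKφ i k (Finset.mem_product.1 hq).2
    have h2 := hKφ i k' (Finset.mem_product.1 hq').2
    have h3 := congrArg φ h
    simp only [hφ, hφσ, h1, h2, add_zero] at h3
    subst h3
    exact Prod.ext rfl (mul_left_cancel h)
  have hKpos : ∀ i, 0 < (K i).card := fun i =>
    Finset.card_pos.2 ⟨1, (hK i 1).2 (Subgroup.one_mem _)⟩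
  refine mean_of_folner atTop F (fun i => Finset.card_pos.1 ?_) fun g => ?_
  · rw [hcard, card_box]
    exact Nat.mul_pos (by positivity) (hKpos i)
  have hlim := (tendsto_box (φ g)).comp
    (tendsto_snd.mono_left (prod_atTop_atTop_eq (α := Finset G) (β := ℕ)).ge)
  refine squeeze_zero' (Eventually.of_forall fun i => by positivity) ?_ hlim
  filter_upwards [eventually_ge_atTop (({g} : Finset G), 0)] with i hi
  have hg : g ∈ i.1 := hi.1 (Finset.mem_singleton_self g)
  have hsub : ((F i).image (g * ·)) \ F i ⊆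
      ((((box i.2).image (φ g + ·)) \ box i.2) ×ˢ K i).image fun q => σ q.1 * q.2 := by
    intro x hx
    obtain ⟨hx1, hx2⟩ := Finset.mem_sdiff.1 hx
    obtain ⟨y, hy, rfl⟩ := Finset.mem_image.1 hx1
    obtain ⟨⟨b, k⟩, hq, rfl⟩ := Finset.mem_image.1 hy
    obtain ⟨hb, hk⟩ := Finset.mem_product.1 hq
    have hk' : (σ (φ g + b))⁻¹ * g * σ b * k ∈ K i := (hK _ _).2 (Subgroup.mul_mem _
      (Subgroup.subset_closure (Finset.mem_coe.2 (Finset.mem_image.2
        ⟨(g, b), Finset.mem_product.2 ⟨hg, hb⟩, rfl⟩))) ((hK _ _).1 hk))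
    have e : g * (σ b * k) = σ (φ g + b) * ((σ (φ g + b))⁻¹ * g * σ b * k) := by group
    refine Finset.mem_image.2 ⟨(φ g + b, _), Finset.mem_product.2 ⟨Finset.mem_sdiff.2
      ⟨Finset.mem_image_of_mem _ hb, fun h => hx2 ?_⟩, hk'⟩, e.symm⟩
    exact Finset.mem_image.2 ⟨(φ g + b, _), Finset.mem_product.2 ⟨h, hk'⟩, e.symm⟩
  have h1 := (Finset.card_le_card hsub).trans Finset.card_image_le
  rw [Finset.card_product] at h1
  have hKr : (0 : ℝ) < (K i).card := by exact_mod_cast hKpos i
  simp only [Function.comp, hcard, Nat.cast_mul]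
  refine le_trans (div_le_div_of_nonneg_right ?_ (by positivity))
    (mul_div_mul_right _ _ hKr.ne').le
  exact_mod_cast h1

/-- A finitely generated permutation group with uniformly bounded orbits is finite. -/
theorem finite_closure_of_bounded_orbits {G α : Type} [Group G] [MulAction G α]
    [FaithfulSMul G α] (S : Finset G) (M : ℕ)
    (h : ∀ a : α, ∃ T : Finset α, T.card ≤ M ∧
      ∀ g ∈ Subgroup.closure (S : Set G), g • a ∈ T) :
    ((Subgroup.closure (S : Set G) : Subgroup G) : Set G).Finite := by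
  classical
  set Γ := Subgroup.closure (S : Set G) with hΓ
  have hfin : Finite (Γ →* Equiv.Perm (Fin M)) := by
    refine Finite.of_injective
      (fun (ψ : Γ →* Equiv.Perm (Fin M)) (s : S) => ψ ⟨s, Subgroup.subset_closure s.2⟩) ?_
    intro ψ ψ' hψ
    ext1 ⟨g, hg⟩
    induction hg using Subgroup.closure_induction with
    | mem x hx => exact congrFun hψ ⟨x, hx⟩
    | one => exact (map_one ψ).trans (map_one ψ').symm
    | mul x y hx hy h1 h2 =>
      exact (map_mul ψ ⟨x, hx⟩ ⟨y, hy⟩).trans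
        ((congrArg₂ (· * ·) h1 h2).trans (map_mul ψ' ⟨x, hx⟩ ⟨y, hy⟩).symm)
    | inv x hx h1 =>
      exact (map_inv ψ ⟨x, hx⟩).trans ((congrArg (·⁻¹) h1).trans (map_inv ψ' ⟨x, hx⟩).symm)
  have : Finite Γ := by
    refine Finite.of_injective (fun (g : Γ) (ψ : Γ →* Equiv.Perm (Fin M)) => ψ g) ?_
    intro g g' hg
    refine Subtype.ext (eq_of_smul_eq_smul (α := α) fun a => ?_)
    obtain ⟨T, hT, hTa⟩ := h a
    have hsub : MulAction.orbit Γ a ⊆ T := by
      rintro _ ⟨k, rfl⟩
      exact hTa k k.2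
    have hof : (MulAction.orbit Γ a).Finite := T.finite_toSet.subset hsub
    have : Fintype (MulAction.orbit Γ a) := hof.fintype
    obtain ⟨ι⟩ : Nonempty (MulAction.orbit Γ a ↪ Fin M) := by
      refine Function.Embedding.nonempty_of_card_le ?_
      rw [Fintype.card_fin, ← Set.toFinset_card]
      exact (Finset.card_le_card (by simpa using hsub)).trans hT
    have h1 := congrFun hg ((Equiv.Perm.viaEmbeddingHom ι).comp
      (MulAction.toPermHom Γ (MulAction.orbit Γ a)))
    have h2 := Equiv.Perm.viaEmbeddingHom_injective ι h1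
    have h3 := congrArg (fun p : Equiv.Perm (MulAction.orbit Γ a) =>
      (p ⟨a, MulAction.mem_orbit_self a⟩ : α)) h2
    exact h3
  exact Set.toFinite _

/-- If the Laplacian of `b` is dominated by that of a nonnegative superharmonic `f`, then `b` is
within `f` of a harmonic function. -/
theorem exists_harmonic_near {G ι : Type} [Group G] [Fintype ι] (s : ι → G) (p : ℝ) (hp : 0 ≤ p)
    (b f : G → ℝ) (hf : ∀ g, 0 ≤ f g)
    (h : ∀ g, |∑ i, p * b (g * s i) - b g| ≤ f g - ∑ i, p * f (g * s i)) :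
    ∃ u : G → ℝ, (∀ g, u g = ∑ i, p * u (g * s i)) ∧ ∀ g, |u g - b g| ≤ f g := by
  let P : (G → ℝ) → G → ℝ := fun a g => ∑ i, p * a (g * s i)
  have h1 : ∀ n g, |P^[n + 1] b g - P^[n] b g| ≤ P^[n] f g - P^[n + 1] f g := fun n => by
    induction n with
    | zero => exact h
    | succ n ih =>
      intro g
      rw [iterate_succ_apply' P (n + 1) b, iterate_succ_apply' P (n + 1) f]
      conv_lhs => rw [iterate_succ_apply' P n b]
      conv_rhs => rw [iterate_succ_apply' P n f]
      simp only [P]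
      rw [← Finset.sum_sub_distrib, ← Finset.sum_sub_distrib]
      refine (Finset.abs_sum_le_sum_abs _ _).trans (Finset.sum_le_sum fun i _ => ?_)
      rw [← mul_sub, ← mul_sub, abs_mul, abs_of_nonneg hp]
      refine mul_le_mul_of_nonneg_left ?_ hp
      have := ih (g * s i)
      rwa [iterate_succ_apply' P n b, iterate_succ_apply' P n f] at this
  have h2 : ∀ n g, 0 ≤ P^[n] f g := fun n => by
    induction n with
    | zero => exact hf
    | succ n ih =>
      intro g
      rw [iterate_succ_apply']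
      exact Finset.sum_nonneg fun i _ => mul_nonneg hp (ih _)
  have h3 : ∀ g n, ∑ k ∈ Finset.range n, dist (P^[k] b g) (P^[k + 1] b g) ≤ f g := fun g n => by
    refine (Finset.sum_le_sum (g := fun k => P^[k] f g - P^[k + 1] f g) fun k _ => ?_).trans ?_
    · rw [dist_comm, Real.dist_eq]
      exact h1 k g
    · rw [Finset.sum_range_sub' (fun k => P^[k] f g)]
      simp only [iterate_zero, id]
      linarith [h2 n g]
  have h4 : ∀ g, ∃ x, Tendsto (fun n => P^[n] b g) atTop (𝓝 x) := fun g =>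
    cauchySeq_tendsto_of_complete (cauchySeq_of_summable_dist
      (summable_of_sum_range_le (fun _ => dist_nonneg) (h3 g)))
  choose u hu using h4
  refine ⟨u, fun g => ?_, fun g => ?_⟩
  · refine tendsto_nhds_unique ((tendsto_add_atTop_iff_nat 1).2 (hu g)) ?_
    simp only [iterate_succ_apply']
    exact tendsto_finsetSum _ fun i _ => (hu _).const_mul p
  · refine le_of_tendsto' ((hu g).sub_const (b g)).abs fun n => ?_
    rw [← Real.dist_eq, dist_comm]
    exact (dist_le_range_sum_dist (fun k => P^[k] b g) n).trans (h3 g n)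

/-- The function `1 / (3 + |t|²)` on `ℤ⁵`. -/
noncomputable def pot (t : V) : ℝ := 1 / (3 + ∑ j, (t j : ℝ) ^ 2)

lemma pot_pos (t : V) : 0 < pot t := by
  unfold pot
  positivity

lemma sum_sq_add_single (t : V) (j : Fin 5) (e : ℤ) :
    ∑ k, (((t + Pi.single j e : V) k : ℤ) : ℝ) ^ 2 = ∑ k, (t k : ℝ) ^ 2 + 2 * e * t j + e ^ 2 := by
  have : ∀ k, (((t + Pi.single j e : V) k : ℤ) : ℝ) ^ 2 =
      (t k : ℝ) ^ 2 + if k = j then 2 * e * (t j : ℝ) + e ^ 2 else 0 := fun k => by
    by_cases h : k = j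
    · subst h
      simp
      ring
    · simp [h]
  simp only [this, Finset.sum_add_distrib, Finset.sum_ite_eq', Finset.mem_univ, if_true]
  ring

/-- `pot` is superharmonic for the simple random walk on `ℤ⁵`. -/
lemma pot_superharmonic (t : V) :
    ∑ j, (pot (t + Pi.single j 1) + pot (t + Pi.single j (-1))) ≤ 10 * pot t := by
  set S := ∑ k, (t k : ℝ) ^ 2 with hS
  have hS0 : 0 ≤ S := by positivity
  have hD : 0 < (S + 4) ^ 2 - 4 * S := by nlinarith
  have h1 : ∀ j, pot (t + Pi.single j 1) + pot (t + Pi.single j (-1)) ≤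
      2 / (S + 4) + (t j : ℝ) ^ 2 * (8 / ((S + 4) * ((S + 4) ^ 2 - 4 * S))) := fun j => by
    have hj : (t j : ℝ) ^ 2 ≤ S := Finset.single_le_sum (f := fun k => (t k : ℝ) ^ 2)
      (fun _ _ => sq_nonneg _) (Finset.mem_univ j)
    simp only [pot, sum_sq_add_single, ← hS]
    generalize (t j : ℝ) = y at hj
    have hD' : (S + 4) ^ 2 - 4 * S ≤ (S + 4) ^ 2 - 4 * y ^ 2 := by linarith
    have p1 : 0 < S + 4 + 2 * y := by nlinarith [sq_nonneg (y + 1)]
    have p2 : 0 < S + 4 - 2 * y := by nlinarith [sq_nonneg (y - 1)]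
    have e1 : 1 / (3 + (S + 2 * ((1 : ℤ) : ℝ) * y + ((1 : ℤ) : ℝ) ^ 2)) +
        1 / (3 + (S + 2 * ((-1 : ℤ) : ℝ) * y + ((-1 : ℤ) : ℝ) ^ 2)) =
        2 / (S + 4) + y ^ 2 * (8 / ((S + 4) * ((S + 4) ^ 2 - 4 * y ^ 2))) := by
      have a1 : 3 + (S + 2 * ((1 : ℤ) : ℝ) * y + ((1 : ℤ) : ℝ) ^ 2) = S + 4 + 2 * y := by
        push_cast; ring
      have a2 : 3 + (S + 2 * ((-1 : ℤ) : ℝ) * y + ((-1 : ℤ) : ℝ) ^ 2) = S + 4 - 2 * y := by
        push_cast; ring
      have a3 : (S + 4) ^ 2 - 4 * y ^ 2 = (S + 4 + 2 * y) * (S + 4 - 2 * y) := by ring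
      rw [a1, a2, a3]
      field_simp
      ring
    rw [e1]
    gcongr
  refine (Finset.sum_le_sum fun j _ => h1 j).trans ?_
  rw [Finset.sum_add_distrib, ← Finset.sum_mul, ← hS]
  simp only [Finset.sum_const, Finset.card_univ, Fintype.card_fin, nsmul_eq_mul, pot, ← hS]
  rw [← sub_nonneg]
  have e : 10 * (1 / (3 + S)) - (((5 : ℕ) : ℝ) * (2 / (S + 4)) +
      S * (8 / ((S + 4) * ((S + 4) ^ 2 - 4 * S)))) =
      (2 * S ^ 2 + 16 * S + 160) / ((3 + S) * ((S + 4) * ((S + 4) ^ 2 - 4 * S))) := by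
    have hD' := hD.ne'
    generalize hDD : (S + 4) ^ 2 - 4 * S = D at hD' ⊢
    field_simp
    rw [← hDD]
    ring
  rw [e]
  positivity

lemma pot_zero : pot 0 = 1 / 3 := by simp [pot]

lemma pot_single (j : Fin 5) (e : ℤ) (he : e ^ 2 = 1) : pot (Pi.single j e) = 1 / 4 := by
  have h := sum_sq_add_single 0 j e
  have he' : (e : ℝ) ^ 2 = 1 := by exact_mod_cast he
  rw [zero_add] at h
  rw [pot, h, he']
  norm_num

end Pool.Agent.MP_684c87_al
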