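import Pool.Agent.MP_684c87_al.General

/-!
# The group

The alphabet is `X = {0,1}⁵ × {0,1}`: five binary digits and a lamp.  The group `Γ` is generated by
the five odometers, which add `1` to one of the five `2`-adic integers written in the digits, and by
the bounded automorphism `c`, which reads letters `z = (0, 0)` and flips the lamp of the first letter
different from `z` if the digits of that letter are not all zero.
-/

set_option autoImplicit false

open Function

namespace Pool.Agent.MP_684c87_al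

/-- The alphabet. -/
abbrev X : Type := (Fin 5 → Bool) × Bool

/-- Digits as a vector. -/
def dig (d : Fin 5 → Bool) : V := fun j => if d j then 1 else 0

/-- Lowest binary digits. -/
def low (t : V) : Fin 5 → Bool := fun j => decide (t j % 2 = 1)

/-- Carry. -/
def hi (t : V) : V := fun j => t j / 2

lemma dig_low (t : V) (j : Fin 5) : dig (low t) j = t j % 2 := by
  simp only [dig, low, decide_eq_true_eq]
  split_ifs <;> omega

lemma dig_cases (d : Fin 5 → Bool) (j : Fin 5) : dig d j = 0 ∨ dig d j = 1 := by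
  simp only [dig]
  split_ifs <;> simp

lemma low_congr {s t : V} (h : ∀ j, s j % 2 = t j % 2) : low s = low t := by
  funext j
  simp only [low, h]

lemma low_dig (d : Fin 5 → Bool) : low (dig d) = d := by
  funext j
  by_cases h : d j = true <;> simp [low, dig, h]

lemma low_dig_add_even (d : Fin 5 → Bool) (t : V) : low (dig d + (t + t)) = d := by
  rw [← low_dig d, low_dig d]
  conv_rhs => rw [← low_dig d]
  exact low_congr fun j => by simp only [Pi.add_apply]; omega

lemma hi_dig_add_even (d : Fin 5 → Bool) (t : V) : hi (dig d + (t + t)) = t := by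
  funext j
  have := dig_cases d j
  simp only [hi, Pi.add_apply]
  omega

/-- Translation by `t`. -/
def trF : V → List X → List X
  | _, [] => []
  | t, x :: w => (low (dig x.1 + t), x.2) :: trF (hi (dig x.1 + t)) w

lemma trF_cons (t : V) (x : X) (w : List X) :
    trF t (x :: w) = (low (dig x.1 + t), x.2) :: trF (hi (dig x.1 + t)) w := rfl

lemma trF_even (t : V) (x : X) (w : List X) : trF (t + t) (x :: w) = x :: trF t w := by
  rw [trF_cons, low_dig_add_even, hi_dig_add_even]

lemma trF_zero (w : List X) : trF 0 w = w := by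
  induction w with
  | nil => rfl
  | cons x w ih =>
    have := trF_even 0 x w
    rwa [add_zero, ih] at this

lemma trF_add (s t : V) (w : List X) : trF (s + t) w = trF s (trF t w) := by
  induction w generalizing s t with
  | nil => rfl
  | cons x w ih =>
    simp only [trF_cons]
    rw [← ih]
    congr 2
    · exact low_congr fun j => by simp only [Pi.add_apply, dig_low]; omega
    · funext j
      simp only [hi, Pi.add_apply, dig_low]
      omega

/-- Translation as a permutation of the tree. -/
def tr (t : V) : Equiv.Perm (List X) where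
  toFun := trF t
  invFun := trF (-t)
  left_inv w := by rw [← trF_add, neg_add_cancel, trF_zero]
  right_inv w := by rw [← trF_add, add_neg_cancel, trF_zero]

lemma tr_apply (t : V) (w : List X) : tr t w = trF t w := rfl

lemma tr_add (s t : V) : tr (s + t) = tr s * tr t := Equiv.ext fun w => trF_add s t w

lemma tr_zero : tr 0 = 1 := Equiv.ext trF_zero

lemma tr_inv (t : V) : (tr t)⁻¹ = tr (-t) := by
  rw [inv_eq_iff_mul_eq_one, ← tr_add, add_neg_cancel, tr_zero]

/-- The zero digits. -/
def zd : Fin 5 → Bool := fun _ => false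

/-- The zero letter. -/
def z : X := (zd, false)

/-- Flip the lamp when the digits are not all zero. -/
def fl (x : X) : X := if x.1 = zd then x else (x.1, !x.2)

lemma fl_fst (x : X) : (fl x).1 = x.1 := by
  unfold fl
  split_ifs <;> rfl

lemma fl_fl (x : X) : fl (fl x) = x := by
  by_cases h : x.1 = zd <;> simp [fl, h]

lemma fl_z : fl z = z := by simp [fl, z]

lemma fl_ne_z {x : X} (h : x ≠ z) : fl x ≠ z := fun h' => h (by rw [← fl_fl x, h', fl_z])

/-- The directed automorphism. -/
def ccF : List X → List X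
  | [] => []
  | x :: w => if x = z then x :: ccF w else fl x :: w

lemma ccF_z (w : List X) : ccF (z :: w) = z :: ccF w := by simp [ccF]

lemma ccF_ne {x : X} (h : x ≠ z) (w : List X) : ccF (x :: w) = fl x :: w := by simp [ccF, h]

lemma ccF_ccF (w : List X) : ccF (ccF w) = w := by
  induction w with
  | nil => rfl
  | cons x w ih =>
    by_cases h : x = z
    · rw [h, ccF_z, ccF_z, ih]
    · rw [ccF_ne h, ccF_ne (fl_ne_z h), fl_fl]

/-- The directed automorphism as a permutation of the tree. -/
def cc : Equiv.Perm (List X) := Function.Involutive.toPerm ccF ccF_ccF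

lemma cc_apply (w : List X) : cc w = ccF w := rfl

lemma cc_mul_cc : cc * cc = 1 := Equiv.ext ccF_ccF

lemma cc_inv : cc⁻¹ = cc := inv_eq_of_mul_eq_one_right cc_mul_cc

/-- The generators. -/
def gen : Option (Fin 5 × Bool) → Equiv.Perm (List X)
  | none => cc
  | some (j, true) => tr (Pi.single j 1)
  | some (j, false) => tr (Pi.single j (-1))

/-- The index of the inverse generator. -/
def ginv : Option (Fin 5 × Bool) → Option (Fin 5 × Bool)
  | none => none
  | some (j, b) => some (j, !b)

lemma ginv_ginv (i : Option (Fin 5 × Bool)) : ginv (ginv i) = i := by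
  rcases i with _ | ⟨j, b⟩ <;> simp [ginv]

lemma gen_ginv (i : Option (Fin 5 × Bool)) : gen (ginv i) = (gen i)⁻¹ := by
  rcases i with _ | ⟨j, _ | _⟩
  · exact cc_inv.symm
  · simp [gen, ginv, tr_inv, ← Pi.single_neg]
  · simp [gen, ginv, tr_inv, ← Pi.single_neg]

/-- The group. -/
def Γ : Subgroup (Equiv.Perm (List X)) := Subgroup.closure (Set.range gen)

lemma gen_mem (i : Option (Fin 5 × Bool)) : gen i ∈ Γ := Subgroup.subset_closure ⟨i, rfl⟩

lemma cc_mem : cc ∈ Γ := gen_mem none

lemma tr_mem (t : V) : tr t ∈ Γ := by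
  induction t using Pi.single_induction with
  | zero => rw [tr_zero]; exact Γ.one_mem
  | add s t hs ht => rw [tr_add]; exact Γ.mul_mem hs ht
  | single j m =>
    induction m using Int.induction_on with
    | zero => rw [Pi.single_zero, tr_zero]; exact Γ.one_mem
    | succ k ih => rw [Pi.single_add, tr_add]; exact Γ.mul_mem ih (gen_mem (some (j, true)))
    | pred k ih =>
      rw [sub_eq_add_neg, Pi.single_add, tr_add]
      exact Γ.mul_mem ih (gen_mem (some (j, false)))

lemma Γ_induction_gen {p : Equiv.Perm (List X) → Prop} (h1 : p 1)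
    (hg : ∀ i g, g ∈ Γ → p g → p (gen i * g)) {g : Equiv.Perm (List X)} (h : g ∈ Γ) : p g := by
  induction h using Subgroup.closure_induction_left with
  | one => exact h1
  | mul_left x hx y hy ih =>
    obtain ⟨i, rfl⟩ := hx
    exact hg i y hy ih
  | inv_mul_cancel x hx y hy ih =>
    obtain ⟨i, rfl⟩ := hx
    rw [← gen_ginv]
    exact hg _ y hy ih

lemma Γ_induction {p : Equiv.Perm (List X) → Prop} (h1 : p 1)
    (ht : ∀ t g, g ∈ Γ → p g → p (tr t * g)) (hc : ∀ g, g ∈ Γ → p g → p (cc * g))
    {g : Equiv.Perm (List X)} (h : g ∈ Γ) : p g := by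
  refine Γ_induction_gen h1 (fun i g hg ih => ?_) h
  rcases i with _ | ⟨j, _ | _⟩
  exacts [hc g hg ih, ht _ g hg ih, ht _ g hg ih]

/-! ### Sections -/

/-- `h` is the section of `g` at `v`. -/
def Sec (g : Equiv.Perm (List X)) (v : List X) (h : Equiv.Perm (List X)) : Prop :=
  ∀ w, g (v ++ w) = g v ++ h w

lemma Sec.mul {g g' h h' : Equiv.Perm (List X)} {v : List X} (H' : Sec g' (g v) h')
    (H : Sec g v h) : Sec (g' * g) v (h' * h) := fun w => by
  simp only [Equiv.Perm.mul_apply]
  rw [H w, H' _]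

lemma Sec.append {g h k : Equiv.Perm (List X)} {v u : List X} (H : Sec g v h) (K : Sec h u k) :
    Sec g (v ++ u) k := fun w => by
  rw [List.append_assoc, H, K, H, List.append_assoc]

lemma sec_one (v : List X) : Sec 1 v 1 := fun _ => rfl

/-- The carry after reading `v`. -/
def cr : V → List X → V
  | t, [] => t
  | t, x :: w => cr (hi (dig x.1 + t)) w

lemma sec_tr (t : V) (v : List X) : Sec (tr t) v (tr (cr t v)) := by
  intro w
  induction v generalizing t with
  | nil => rfl
  | cons x v ih =>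
    simp only [tr_apply] at ih ⊢
    rw [List.cons_append, trF_cons, trF_cons, ih, List.cons_append]
    rfl

lemma sec_cc (v : List X) : Sec cc v (if ∀ x ∈ v, x = z then cc else 1) := by
  intro w
  induction v with
  | nil => simp [cc_apply, ccF]
  | cons x v ih =>
    simp only [cc_apply] at ih ⊢
    by_cases h : x = z
    · rw [h, List.cons_append, ccF_z, ccF_z, ih]
      simp
    · rw [List.cons_append, ccF_ne h, ccF_ne h, if_neg (by simp [h])]
      rfl

lemma length_trF (t : V) (w : List X) : (trF t w).length = w.length := by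
  induction w generalizing t with
  | nil => rfl
  | cons x w ih => simp [trF_cons, ih]

lemma map_fst_ccF (w : List X) : (ccF w).map Prod.fst = w.map Prod.fst := by
  induction w with
  | nil => rfl
  | cons x w ih =>
    by_cases h : x = z
    · rw [h, ccF_z, List.map_cons, ih, List.map_cons]
    · rw [ccF_ne h, List.map_cons, fl_fst, List.map_cons]

lemma length_ccF (w : List X) : (ccF w).length = w.length := by
  simpa using congrArg List.length (map_fst_ccF w)

lemma length_apply {g : Equiv.Perm (List X)} (hg : g ∈ Γ) (w : List X) :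
    (g w).length = w.length := by
  refine Γ_induction (p := fun g => (g w).length = w.length) rfl (fun t g _ ih => ?_)
    (fun g _ ih => ?_) hg
  · rw [Equiv.Perm.mul_apply, tr_apply, length_trF, ih]
  · rw [Equiv.Perm.mul_apply, cc_apply, length_ccF, ih]

/-- Self-similarity. -/
lemma exists_sec {g : Equiv.Perm (List X)} (hg : g ∈ Γ) (v : List X) : ∃ h ∈ Γ, Sec g v h := by
  refine Γ_induction (p := fun g => ∃ h ∈ Γ, Sec g v h) ⟨1, Γ.one_mem, sec_one v⟩ ?_ ?_ hg
  · rintro t g - ⟨h, hh, H⟩
    exact ⟨_, Γ.mul_mem (tr_mem _) hh, (sec_tr t _).mul H⟩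
  · rintro g - ⟨h, hh, H⟩
    refine ⟨_, Γ.mul_mem ?_ hh, (sec_cc _).mul H⟩
    split_ifs
    exacts [cc_mem, Γ.one_mem]

lemma isPrefix_apply {g : Equiv.Perm (List X)} (hg : g ∈ Γ) {u v : List X} (h : u <+: v) :
    g u <+: g v := by
  obtain ⟨w, rfl⟩ := h
  obtain ⟨h, -, H⟩ := exists_sec hg u
  exact ⟨h w, (H w).symm⟩

lemma isPrefix_apply_iff {g : Equiv.Perm (List X)} (hg : g ∈ Γ) (u v : List X) :
    g u <+: g v ↔ u <+: v :=
  ⟨fun h => by simpa using isPrefix_apply (Γ.inv_mem hg) h, isPrefix_apply hg⟩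

/-! ### Transitivity and self-replication -/

lemma lift_z {h : Equiv.Perm (List X)} (hh : h ∈ Γ) : ∃ g ∈ Γ, ∀ w, g (z :: w) = z :: h w := by
  refine Γ_induction (p := fun h => ∃ g ∈ Γ, ∀ w, g (z :: w) = z :: h w)
    ⟨1, Γ.one_mem, fun _ => rfl⟩ ?_ ?_ hh
  · rintro t h - ⟨g, hg, H⟩
    refine ⟨tr (t + t) * g, Γ.mul_mem (tr_mem _) hg, fun w => ?_⟩
    rw [Equiv.Perm.mul_apply, H, tr_apply, trF_even]
    rfl
  · rintro h - ⟨g, hg, H⟩
    refine ⟨cc * g, Γ.mul_mem cc_mem hg, fun w => ?_⟩
    rw [Equiv.Perm.mul_apply, H, cc_apply, ccF_z]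
    rfl

lemma low_zero : low 0 = zd := by
  funext j
  simp [low, zd]

lemma dig_zd : dig zd = 0 := by
  funext j
  simp [dig, zd]

/-- A nonzero digit vector. -/
def od : Fin 5 → Bool := fun _ => true

lemma od_ne : od ≠ zd := fun h => by simpa [od, zd] using congrFun h 0

lemma trF_letter (d d' : Fin 5 → Bool) (b : Bool) :
    trF (dig d' - dig d) [(d, b)] = [(d', b)] := by
  rw [trF_cons, add_sub_cancel, low_dig]
  rfl

lemma letter_to_z (x : X) : ∃ g ∈ Γ, g [x] = [z] := by
  obtain ⟨d, _ | _⟩ := x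
  · exact ⟨tr _, tr_mem _, trF_letter d zd false⟩
  · refine ⟨tr (dig zd - dig od) * cc * tr (dig od - dig d),
      Γ.mul_mem (Γ.mul_mem (tr_mem _) cc_mem) (tr_mem _), ?_⟩
    simp only [Equiv.Perm.mul_apply, tr_apply, cc_apply]
    rw [trF_letter, ccF_ne (by simp [z]), show fl (od, true) = (od, false) by simp [fl, od_ne],
      trF_letter]
    rfl

lemma to_zero (n : ℕ) : ∀ v : List X, v.length = n → ∃ g ∈ Γ, g v = List.replicate n z := by
  induction n with
  | zero =>
    intro v hv
    exact ⟨1, Γ.one_mem, List.length_eq_zero_iff.1 hv⟩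
  | succ n ih =>
    rintro (_ | ⟨x, w⟩) hv
    · simp at hv
    obtain ⟨g, hg, hx⟩ := letter_to_z x
    obtain ⟨g', hg', H⟩ := exists_sec hg [x]
    obtain ⟨h, hh, hw⟩ := ih (g' w) (by rw [length_apply hg']; simpa using hv)
    obtain ⟨k, hk, K⟩ := lift_z hh
    refine ⟨k * g, Γ.mul_mem hk hg, ?_⟩
    have := H w
    rw [List.singleton_append, hx, List.singleton_append] at this
    rw [Equiv.Perm.mul_apply, this, K, hw, List.replicate_succ]

lemma level_transitive (u v : List X) (h : u.length = v.length) : ∃ g ∈ Γ, g u = v := by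
  obtain ⟨g, hg, hu⟩ := to_zero _ u rfl
  obtain ⟨g', hg', hv⟩ := to_zero _ v rfl
  refine ⟨g'⁻¹ * g, Γ.mul_mem (Γ.inv_mem hg') hg, ?_⟩
  rw [Equiv.Perm.mul_apply, hu, h, ← hv]
  simp

lemma self_replicating (x : X) {h : Equiv.Perm (List X)} (hh : h ∈ Γ) :
    ∃ g ∈ Γ, ∀ w, g (x :: w) = x :: h w := by
  obtain ⟨a, ha, hx⟩ := letter_to_z x
  obtain ⟨a', ha', H⟩ := exists_sec ha [x]
  obtain ⟨k, hk, K⟩ := lift_z (Γ.mul_mem (Γ.mul_mem ha' hh) (Γ.inv_mem ha'))
  have H' : ∀ w, a (x :: w) = z :: a' w := fun w => by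
    have := H w
    rwa [List.singleton_append, hx, List.singleton_append] at this
  refine ⟨a⁻¹ * k * a, Γ.mul_mem (Γ.mul_mem (Γ.inv_mem ha) hk) ha, fun w => ?_⟩
  rw [Equiv.Perm.mul_apply, Equiv.Perm.mul_apply, H', K, Equiv.Perm.inv_eq_iff_eq, H']
  simp

/-! ### Rigid stabilisers -/

/-- The commutator-like element supported below `zⁿ`. -/
def rr (t : V) : Equiv.Perm (List X) := cc * tr t * cc * tr (-t)

lemma rr_mem (t : V) : rr t ∈ Γ :=
  Γ.mul_mem (Γ.mul_mem (Γ.mul_mem cc_mem (tr_mem _)) cc_mem) (tr_mem _)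

lemma rr_apply (t : V) (w : List X) : rr t w = ccF (trF t (ccF (trF (-t) w))) := rfl

lemma rr_z (t : V) (w : List X) : rr (t + t) (z :: w) = z :: rr t w := by
  rw [rr_apply, neg_add, trF_even, ccF_z, trF_even, ccF_z, rr_apply]

lemma rr_ne (t : V) {x : X} (h : x ≠ z) (w : List X) : rr (t + t) (x :: w) = x :: w := by
  rw [rr_apply, neg_add, trF_even, ccF_ne h, trF_even, ccF_ne (fl_ne_z h), fl_fl, ← trF_add,
    add_neg_cancel, trF_zero]

lemma exists_rr (n : ℕ) : ∃ t, rr t ≠ 1 ∧ ∀ w, ¬ List.replicate n z <+: w → rr t w = w := by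
  induction n with
  | zero =>
    refine ⟨dig zd - dig od, fun h => ?_, fun w hw => absurd List.nil_prefix hw⟩
    have h1 := congrArg (fun g : Equiv.Perm (List X) => g [z]) h
    simp only [rr_apply, neg_sub, z, trF_letter, Equiv.Perm.one_apply] at h1
    rw [ccF_ne (by simp [z, od_ne]), show fl (od, false) = (od, true) by simp [fl, od_ne],
      trF_letter, ccF_ne (by simp [z])] at h1
    simp [fl] at h1
  | succ n ih =>
    obtain ⟨t, ht, H⟩ := ih
    refine ⟨t + t, fun h => ht (Equiv.ext fun w => ?_), ?_⟩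
    · have := rr_z t w
      rw [h] at this
      exact (List.cons.inj this).2.symm
    · rintro (_ | ⟨x, w⟩) hw
      · rfl
      by_cases hx : x = z
      · rw [hx, rr_z, H w fun h => hw ?_]
        rw [hx, List.replicate_succ]
        exact (List.prefix_cons_inj z).2 h
      · exact rr_ne t hx w

lemma exists_rist (v : List X) : ∃ g ∈ Γ, g ≠ 1 ∧ ∀ w, ¬ v <+: w → g w = w := by
  obtain ⟨a, ha, hv⟩ := to_zero _ v rfl
  obtain ⟨t, ht, H⟩ := exists_rr v.length
  refine ⟨a⁻¹ * rr t * a, Γ.mul_mem (Γ.mul_mem (Γ.inv_mem ha) (rr_mem t)) ha, fun h => ht ?_,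
    fun w hw => ?_⟩
  · have : rr t = a * (a⁻¹ * rr t * a) * a⁻¹ := by group
    rw [this, h]
    group
  · rw [Equiv.Perm.mul_apply, Equiv.Perm.mul_apply, H _ fun h => hw ?_]
    · simp
    · rwa [← hv, isPrefix_apply_iff ha] at h

end Pool.Agent.MP_684c87_al
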