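import Mathlib.Data.Pi.Interval
import Mathlib.Data.Set.Finite.List
import Pool.Agent.MP_684c87_al.Group

/-!
# Amenability, contraction and a bounded harmonic function
-/

set_option autoImplicit false

open Function Filter

namespace Pool.Agent.MP_684c87_al

/-! ### The projection to `ℤ⁵` -/

/-- `g` acts on the digits as the translation by `t`. -/
def Over (g : Equiv.Perm (List X)) (t : V) : Prop :=
  ∀ w, (g w).map Prod.fst = (trF t w).map Prod.fst

lemma map_fst_trF_congr (t : V) {u u' : List X} (h : u.map Prod.fst = u'.map Prod.fst) :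
    (trF t u).map Prod.fst = (trF t u').map Prod.fst := by
  induction u generalizing t u' with
  | nil =>
    rw [List.map_nil, eq_comm, List.map_eq_nil_iff] at h
    rw [h]
  | cons x w ih =>
    rcases u' with _ | ⟨x', w'⟩
    · simp at h
    simp only [List.map_cons, List.cons.injEq] at h
    simp only [trF_cons, List.map_cons, h.1, ih _ h.2]

lemma map_snd_trF (t : V) (w : List X) : (trF t w).map Prod.snd = w.map Prod.snd := by
  induction w generalizing t with
  | nil => rfl
  | cons x w ih => simp only [trF_cons, List.map_cons, ih]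

lemma Over.mul {g h : Equiv.Perm (List X)} {s t : V} (hg : Over g s) (hh : Over h t) :
    Over (g * h) (s + t) := fun w => by
  rw [Equiv.Perm.mul_apply, hg, trF_add]
  exact map_fst_trF_congr s (hh w)

lemma over_tr (t : V) : Over (tr t) t := fun _ => rfl

lemma over_cc : Over cc 0 := fun w => by rw [cc_apply, map_fst_ccF, trF_zero]

lemma exists_over {g : Equiv.Perm (List X)} (hg : g ∈ Γ) : ∃ t, Over g t := by
  refine Γ_induction (p := fun g => ∃ t, Over g t) ⟨0, fun w => by rw [trF_zero]; rfl⟩ ?_ ?_ hg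
  · rintro t g - ⟨s, hs⟩
    exact ⟨_, (over_tr t).mul hs⟩
  · rintro g - ⟨s, hs⟩
    exact ⟨_, over_cc.mul hs⟩

lemma exists_digit_ne (t : V) (ht : t ≠ 0) : ∃ i d, d ≠ zd ∧ ∀ n, i < n → ∀ w,
    ((trF t (List.replicate n z ++ w)).map Prod.fst)[i]? = some d := by
  induction hm : ∑ j, (t j).natAbs using Nat.strong_induction_on generalizing t with
  | _ m ih =>
    have e : ∀ n w, trF t (List.replicate (n + 1) z ++ w) =
        (low t, false) :: trF (hi t) (List.replicate n z ++ w) := fun n w => by
      rw [List.replicate_succ, List.cons_append, trF_cons]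
      simp [z, dig_zd]
    by_cases hl : low t = zd
    · have hev : ∀ j, t j % 2 = 0 := fun j => by
        have := congrFun hl j
        simp only [low, zd, decide_eq_false_iff_not] at this
        omega
      obtain ⟨j0, hj0⟩ := Function.ne_iff.1 ht
      have hj0' : t j0 ≠ 0 := hj0
      have hne : hi t ≠ 0 := fun h => by
        have h1 : t j0 / 2 = 0 := congrFun h j0
        have := hev j0
        omega
      have hlt : ∑ j, (hi t j).natAbs < m := by
        rw [← hm]
        refine Finset.sum_lt_sum (fun j _ => ?_) ⟨j0, Finset.mem_univ _, ?_⟩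
        · have := hev j
          simp only [hi]
          omega
        · have := hev j0
          simp only [hi]
          omega
      obtain ⟨i, d, hd, H⟩ := ih _ hlt (hi t) hne rfl
      refine ⟨i + 1, d, hd, ?_⟩
      rintro (_ | n) hn w
      · omega
      rw [e, List.map_cons, List.getElem?_cons_succ, H n (by omega)]
    · refine ⟨0, low t, hl, ?_⟩
      rintro (_ | n) hn w
      · omega
      rw [e, List.map_cons, List.getElem?_cons_zero]

lemma Over.unique {g : Equiv.Perm (List X)} {s t : V} (hs : Over g s) (ht : Over g t) : s = t := by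
  by_contra hne
  obtain ⟨i, d, hd, H⟩ := exists_digit_ne (-t + s) fun h => hne (neg_add_eq_zero.1 h).symm
  have h1 := H (i + 1) (Nat.lt_succ_self i) []
  have h2 := map_fst_trF_congr (-t) ((hs (List.replicate (i + 1) z ++ [])).symm.trans (ht _))
  rw [← trF_add, ← trF_add, neg_add_cancel, trF_zero] at h2
  rw [h2] at h1
  simp only [List.append_nil, List.map_replicate, List.getElem?_replicate, Nat.lt_succ_self,
    if_true, Option.some.injEq] at h1
  exact hd h1.symm

/-- The projection to `ℤ⁵`. -/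
noncomputable def φ (g : Γ) : V := (exists_over g.2).choose

lemma over_φ (g : Γ) : Over g (φ g) := (exists_over g.2).choose_spec

lemma φ_mul (g h : Γ) : φ (g * h) = φ g + φ h :=
  (over_φ (g * h)).unique ((over_φ g).mul (over_φ h))

lemma φ_eq {g : Γ} {t : V} (h : Over g t) : φ g = t := (over_φ g).unique h

lemma φ_inv (g : Γ) : φ g⁻¹ = -φ g := by
  have h1 := φ_mul g⁻¹ g
  rw [inv_mul_cancel, φ_eq (g := 1) (t := 0) fun w => by rw [trF_zero]; rfl] at h1
  exact eq_neg_of_add_eq_zero_left h1.symm

/-! ### The kernel is locally finite -/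

/-- Index of the first nonzero digit vector. -/
def fi : List (Fin 5 → Bool) → ℕ
  | [] => 0
  | d :: l => if d = zd then fi l + 1 else 0

lemma ccF_getElem? (w : List X) (i : ℕ) (h : i ≠ fi (w.map Prod.fst)) : (ccF w)[i]? = w[i]? := by
  induction w generalizing i with
  | nil => rfl
  | cons x w ih =>
    by_cases hx : x = z
    · subst hx
      rw [ccF_z]
      rcases i with _ | i
      · rfl
      · simp only [List.getElem?_cons_succ]
        refine ih i fun h' => h ?_
        simp [fi, z, h']
    · rw [ccF_ne hx]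
      rcases i with _ | i
      · by_cases hd : x.1 = zd
        · simp [fl, hd]
        · simp [fi, hd] at h
      · rfl

lemma fi_le {l : List (Fin 5 → Bool)} {i : ℕ} {d : Fin 5 → Bool} (h : l[i]? = some d)
    (hd : d ≠ zd) : fi l ≤ i := by
  induction l generalizing i with
  | nil => simp at h
  | cons a l ih =>
    simp only [fi]
    split_ifs with ha
    · rcases i with _ | i
      · simp only [List.getElem?_cons_zero, Option.some.injEq] at h
        exact absurd (h ▸ ha) hd
      · exact Nat.succ_le_succ (ih h)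
    · exact Nat.zero_le _

/-- The lamp at position `i`. -/
def lamp (w : List X) (i : ℕ) : Option Bool := (w.map Prod.snd)[i]?

lemma lamp_trF (t : V) (w : List X) (i : ℕ) : lamp (trF t w) i = lamp w i := by
  simp only [lamp, map_snd_trF]

lemma lamp_ccF (w : List X) (i : ℕ) (h : i ≠ fi (w.map Prod.fst)) : lamp (ccF w) i = lamp w i := by
  simp only [lamp, List.getElem?_map, ccF_getElem? w i h]

lemma exists_bd {g : Equiv.Perm (List X)} (hg : g ∈ Γ) : ∃ r : ℕ, ∀ w₀ : List X, ∃ P : Finset ℕ,
    P.card ≤ r ∧ ∀ w : List X, w.map Prod.fst = w₀.map Prod.fst → ∀ i ∉ P,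
      lamp (g w) i = lamp w i := by
  refine Γ_induction (p := fun g => ∃ r : ℕ, ∀ w₀ : List X, ∃ P : Finset ℕ,
    P.card ≤ r ∧ ∀ w : List X, w.map Prod.fst = w₀.map Prod.fst → ∀ i ∉ P,
      lamp (g w) i = lamp w i) ⟨0, fun _ => ⟨∅, le_rfl, fun _ _ _ _ => rfl⟩⟩ ?_ ?_ hg
  · rintro t g - ⟨r, H⟩
    refine ⟨r, fun w₀ => ?_⟩
    obtain ⟨P, hP, K⟩ := H w₀
    exact ⟨P, hP, fun w hw i hi => by rw [Equiv.Perm.mul_apply, tr_apply, lamp_trF, K w hw i hi]⟩
  · rintro g hg ⟨r, H⟩
    refine ⟨r + 1, fun w₀ => ?_⟩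
    obtain ⟨P, hP, K⟩ := H w₀
    obtain ⟨t, ht⟩ := exists_over hg
    refine ⟨insert (fi ((g w₀).map Prod.fst)) P,
      (Finset.card_insert_le _ _).trans (Nat.succ_le_succ hP), fun w hw i hi => ?_⟩
    rw [Finset.mem_insert, not_or] at hi
    rw [Equiv.Perm.mul_apply, cc_apply, lamp_ccF, K w hw i hi.2]
    rw [ht w, map_fst_trF_congr t hw, ← ht w₀]
    exact hi.1

lemma locally_finite (S : Finset Γ) (hS : ∀ s ∈ S, φ s = 0) :
    ((Subgroup.closure (S : Set Γ) : Subgroup Γ) : Set Γ).Finite := by
  classical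
  choose r hr using fun g : Γ => exists_bd g.2
  choose P hP hP' using hr
  refine finite_closure_of_bounded_orbits (α := List X) S (2 ^ ∑ s ∈ S, r s) fun w₀ => ?_
  let Q : Finset ℕ := S.biUnion fun s => P s w₀
  have hQ : Q.card ≤ ∑ s ∈ S, r s :=
    Finset.card_biUnion_le.trans (Finset.sum_le_sum fun s _ => hP s w₀)
  refine ⟨Q.powerset.image fun R => w₀.mapIdx fun i x =>
    (x.1, if i ∈ Q then decide (i ∈ R) else x.2), Finset.card_image_le.trans ?_, ?_⟩
  · rw [Finset.card_powerset]
    exact Nat.pow_le_pow_right (by norm_num) hQ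
  intro g hg
  have key : (∀ w : List X, ((g : Equiv.Perm (List X)) w).map Prod.fst = w.map Prod.fst) ∧
      ∀ w : List X, w.map Prod.fst = w₀.map Prod.fst → ∀ i ∉ Q,
        lamp ((g : Equiv.Perm (List X)) w) i = lamp w i := by
    induction hg using Subgroup.closure_induction with
    | mem s hs =>
      refine ⟨fun w => by rw [over_φ s w, hS s hs, trF_zero], fun w hw i hi => ?_⟩
      exact hP' s w₀ w hw i fun h => hi (Finset.mem_biUnion.2 ⟨s, hs, h⟩)
    | one => exact ⟨fun _ => rfl, fun _ _ _ _ => rfl⟩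
    | mul a b _ _ ha hb =>
      refine ⟨fun w => ?_, fun w hw i hi => ?_⟩
      · rw [Subgroup.coe_mul, Equiv.Perm.mul_apply, ha.1, hb.1]
      · rw [Subgroup.coe_mul, Equiv.Perm.mul_apply, ha.2 _ ((hb.1 w).trans hw) i hi,
          hb.2 w hw i hi]
    | inv a _ ha =>
      have h1 : ∀ w : List X, (((a⁻¹ : Γ) : Equiv.Perm (List X)) w).map Prod.fst =
          w.map Prod.fst := fun w => by
        rw [← ha.1]
        simp
      refine ⟨h1, fun w hw i hi => ?_⟩
      rw [← ha.2 _ ((h1 w).trans hw) i hi]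
      simp
  refine Finset.mem_image.2 ⟨Q.filter fun i => lamp ((g : Equiv.Perm (List X)) w₀) i = some true,
    Finset.mem_powerset.2 (Finset.filter_subset _ _), ?_⟩
  change _ = (g : Equiv.Perm (List X)) w₀
  have h1 := key.1 w₀
  have h2 := key.2 w₀ rfl
  generalize (g : Equiv.Perm (List X)) w₀ = u at h1 h2
  have hlen : u.length = w₀.length := by simpa using congrArg List.length h1
  refine List.ext_getElem (by simp [hlen]) fun i hi1 hi2 => ?_
  have hi3 : i < w₀.length := hlen ▸ hi2
  have h3 : u[i].1 = w₀[i].1 := by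
    have := congrArg (·[i]?) h1
    simpa [hi2, hi3] using this
  rw [List.getElem_mapIdx]
  refine Prod.ext h3.symm ?_
  by_cases hi : i ∈ Q
  · simp only [hi, if_true, Finset.mem_filter, true_and, lamp, List.getElem?_map,
      List.getElem?_eq_getElem hi2, Option.map_some, Option.some.injEq, Bool.decide_eq_true]
  · have := h2 i hi
    simp only [lamp, List.getElem?_map, List.getElem?_eq_getElem hi2,
      List.getElem?_eq_getElem hi3, Option.map_some, Option.some.injEq] at this
    simp [hi, this]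

theorem amenable : ∃ m : Set Γ → ℝ, (∀ A, 0 ≤ m A) ∧ m Set.univ = 1 ∧
    (∀ A B, Disjoint A B → m (A ∪ B) = m A + m B) ∧
    ∀ (g : Γ) (A : Set Γ), m ((fun x => g * x) '' A) = m A :=
  mean_of_split φ φ_mul (fun t => ⟨tr t, tr_mem t⟩) (fun t => φ_eq (over_tr t)) locally_finite

/-! ### Contraction -/

/-- Normal form of the elements of the nucleus. -/
def form (s : V) (e : Bool) (s' : V) : Equiv.Perm (List X) := tr s * (if e then cc else 1) * tr s'

lemma form_mem (s : V) (e : Bool) (s' : V) : form s e s' ∈ Γ := by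
  refine Γ.mul_mem (Γ.mul_mem (tr_mem _) ?_) (tr_mem _)
  split_ifs
  exacts [cc_mem, Γ.one_mem]

/-- All coordinates are in `{-1, 0, 1}`. -/
def Small (t : V) : Prop := ∀ j, -1 ≤ t j ∧ t j ≤ 1

lemma small_cr (v : List X) (m : ℕ) (t : V) (ht : ∀ j, -(m + 1 : ℤ) ≤ t j ∧ t j ≤ m + 1)
    (hv : m ≤ v.length) : Small (cr t v) := by
  induction v generalizing t m with
  | nil =>
    obtain rfl : m = 0 := by simpa using hv
    intro j
    simpa [cr] using ht j
  | cons x w ih =>
    refine ih (m - 1) _ (fun j => ?_) (by simp at hv; omega)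
    have h1 := ht j
    have h2 := dig_cases x.1 j
    simp only [hi, Pi.add_apply]
    omega

lemma exists_small_cr (t : V) : ∃ m : ℕ, ∀ v : List X, m ≤ v.length → Small (cr t v) := by
  refine ⟨∑ j, (t j).natAbs, fun v hv => small_cr v _ t (fun j => ?_) hv⟩
  have := Finset.single_le_sum (f := fun j => (t j).natAbs) (fun _ _ => Nat.zero_le _)
    (Finset.mem_univ j)
  omega

/-- All deep sections of `g` lie in the nucleus. -/
def Good (g : Equiv.Perm (List X)) : Prop :=
  ∃ n, ∀ v : List X, n ≤ v.length → ∃ s e s', Small s ∧ Small s' ∧ Sec g v (form s e s')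

lemma sec_ite (e : Bool) (v : List X) :
    ∃ e' : Bool, Sec (if e then cc else 1) v (if e' then cc else 1) := by
  cases e
  · exact ⟨false, sec_one v⟩
  · refine ⟨decide (∀ x ∈ v, x = z), ?_⟩
    simpa using sec_cc v

lemma good_form (s : V) (e : Bool) (s' : V) : Good (form s e s') := by
  obtain ⟨m, hm⟩ := exists_small_cr s
  obtain ⟨m', hm'⟩ := exists_small_cr s'
  refine ⟨max m m', fun v hv => ?_⟩
  obtain ⟨e', he'⟩ := sec_ite e (tr s' v)
  refine ⟨_, e', _, hm _ ?_, hm' v ((le_max_right _ _).trans hv),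
    ((sec_tr s _).mul he').mul (sec_tr s' v)⟩
  have : (if e then cc else 1 : Equiv.Perm (List X)) ∈ Γ := by
    split_ifs
    exacts [cc_mem, Γ.one_mem]
  rw [length_apply this, length_apply (tr_mem _)]
  exact (le_max_left _ _).trans hv

lemma good_of_level {g : Equiv.Perm (List X)} (n : ℕ)
    (h : ∀ v : List X, v.length = n → ∃ k, Sec g v k ∧ Good k) : Good g := by
  choose! k hk hk' using h
  choose! N hN using hk'
  obtain ⟨M, hM⟩ := ((List.finite_length_eq X n).image N).bddAbove
  refine ⟨n + M, fun v hv => ?_⟩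
  have h1 : (v.take n).length = n := by simp; omega
  have h2 : N (v.take n) ≤ M := hM ⟨_, h1, rfl⟩
  obtain ⟨s, e, s', hs, hs', H⟩ := hN _ h1 (v.drop n) (by simp; omega)
  refine ⟨s, e, s', hs, hs', ?_⟩
  have := (hk _ h1).append H
  rwa [List.take_append_drop] at this

lemma ccF_replicate (n : ℕ) (w : List X) :
    ccF (List.replicate n z ++ w) = List.replicate n z ++ ccF w := by
  induction n with
  | zero => rfl
  | succ n ih => rw [List.replicate_succ, List.cons_append, ccF_z, ih, List.cons_append]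

lemma good_cc_mul_form (s : V) (e : Bool) (s' : V) : Good (cc * form s e s') := by
  cases e
  · have : cc * form s false s' = form 0 true (s + s') := by
      simp [form, tr_zero, tr_add]
    rw [this]
    exact good_form _ _ _
  by_cases hs : s = 0
  · have : cc * form s true s' = form 0 false s' := by
      simp [form, hs, tr_zero, ← mul_assoc, cc_mul_cc]
    rw [this]
    exact good_form _ _ _
  obtain ⟨i, d, hd, H⟩ := exists_digit_ne s hs
  refine good_of_level (i + 1) fun v hv => ?_
  have hsec := (sec_cc _).mul (((sec_tr s _).mul (sec_cc (tr s' v))).mul (sec_tr s' v))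
  refine ⟨_, hsec, ?_⟩
  by_cases hu : ∀ x ∈ tr s' v, x = z
  · have h1 : tr s' v = List.replicate (i + 1) z :=
      List.eq_replicate_iff.2 ⟨by rw [length_apply (tr_mem _), hv], hu⟩
    have h2 : ¬ ∀ x ∈ (tr s * cc * tr s') v, x = z := by
      intro h2
      have h3 := H (i + 1) (Nat.lt_succ_self i) []
      have h4 : (tr s * cc * tr s') v = trF s (List.replicate (i + 1) z ++ []) := by
        rw [Equiv.Perm.mul_apply, Equiv.Perm.mul_apply, h1, cc_apply, tr_apply]
        have := ccF_replicate (i + 1) []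
        rw [List.append_nil] at this
        rw [this]
        rfl
      rw [← h4] at h3
      obtain ⟨x, hx, hx'⟩ := List.mem_map.1 (List.mem_of_getElem? h3)
      exact hd (by rw [← hx', h2 x hx]; rfl)
    rw [if_neg h2, if_pos hu, one_mul]
    exact good_form _ true _
  · rw [if_neg hu, mul_one, ← tr_add]
    split_ifs
    · have := good_form 0 true (cr s (cc (tr s' v)) + cr s' v)
      simpa [form, tr_zero] using this
    · have := good_form 0 false (cr s (cc (tr s' v)) + cr s' v)
      simpa [form, tr_zero] using this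

lemma good_of_mem {g : Equiv.Perm (List X)} (hg : g ∈ Γ) : Good g := by
  refine Γ_induction (p := Good) ?_ ?_ ?_ hg
  · simpa [form, tr_zero] using good_form 0 false 0
  · rintro t g - ⟨n, H⟩
    refine good_of_level n fun v hv => ?_
    obtain ⟨s, e, s', -, -, K⟩ := H v hv.ge
    refine ⟨_, (sec_tr t _).mul K, ?_⟩
    have := good_form (cr t (g v) + s) e s'
    simpa [form, tr_add, mul_assoc] using this
  · rintro g - ⟨n, H⟩
    refine good_of_level n fun v hv => ?_
    obtain ⟨s, e, s', -, -, K⟩ := H v hv.ge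
    refine ⟨_, (sec_cc _).mul K, ?_⟩
    split_ifs
    · exact good_cc_mul_form _ _ _
    · rw [one_mul]
      exact good_form _ _ _

theorem contracting : ∃ N : Set (Equiv.Perm (List X)), N.Finite ∧ N ⊆ Γ ∧
    ∀ g ∈ Γ, ∃ n, ∀ v : List X, n ≤ v.length → ∃ h ∈ N, Sec g v h := by
  have hfin : {s : V | Small s}.Finite :=
    (Set.finite_Icc (fun _ => -1 : V) (fun _ => 1)).subset fun s hs =>
      ⟨fun j => (hs j).1, fun j => (hs j).2⟩
  refine ⟨(fun q : V × Bool × V => form q.1 q.2.1 q.2.2) ''
    ({s | Small s} ×ˢ (Set.univ ×ˢ {s | Small s})),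
    (hfin.prod (Set.finite_univ.prod hfin)).image _, ?_, fun g hg => ?_⟩
  · rintro _ ⟨q, -, rfl⟩
    exact form_mem _ _ _
  · obtain ⟨n, H⟩ := good_of_mem hg
    refine ⟨n, fun v hv => ?_⟩
    obtain ⟨s, e, s', hs, hs', K⟩ := H v hv
    exact ⟨_, ⟨(s, e, s'), ⟨hs, Set.mem_univ _, hs'⟩, rfl⟩, K⟩

/-! ### The harmonic function -/

/-- The generators as elements of `Γ`. -/
def sg (i : Option (Fin 5 × Bool)) : Γ := ⟨gen i, gen_mem i⟩

/-- Test words. -/
def ξ (n : ℕ) : List X := List.replicate n z ++ [(od, false)]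

/-- The germ lamp is on. -/
def On (g : Γ) : Prop :=
  ∀ᶠ n in atTop, lamp (((g⁻¹ : Γ) : Equiv.Perm (List X)) (ξ n)) n = some true

lemma on_mul_tr (g : Γ) (t : V) : On (g * ⟨tr t, tr_mem t⟩) ↔ On g := by
  simp only [On, mul_inv_rev, Subgroup.coe_mul, Equiv.Perm.mul_apply, Subgroup.coe_inv, tr_inv,
    tr_apply, lamp_trF]

lemma on_mul_cc (g : Γ) (hg : φ g ≠ 0) : On (g * sg none) ↔ On g := by
  obtain ⟨i, d, hd, H⟩ := exists_digit_ne (φ g⁻¹) (by rwa [φ_inv, neg_ne_zero])
  refine eventually_congr ?_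
  filter_upwards [eventually_gt_atTop i] with n hn
  have h1 := H n hn [(od, false)]
  rw [← over_φ] at h1
  have h2 := fi_le h1 hd
  have h3 : (((g * sg none)⁻¹ : Γ) : Equiv.Perm (List X)) (ξ n) =
      ccF (((g⁻¹ : Γ) : Equiv.Perm (List X)) (ξ n)) := by
    simp only [mul_inv_rev, Subgroup.coe_mul, Equiv.Perm.mul_apply, Subgroup.coe_inv, sg, gen,
      cc_inv, cc_apply]
  rw [h3, lamp_ccF]
  exact fun h => absurd (h ▸ h2 : n ≤ i) (not_le.2 hn)

lemma not_on_one : ¬ On 1 := fun h => by
  obtain ⟨n, hn⟩ := h.exists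
  simp [lamp, ξ] at hn

lemma on_cc : On (sg none) := Eventually.of_forall fun n => by
  have h3 : (((sg none)⁻¹ : Γ) : Equiv.Perm (List X)) (ξ n) = ccF (ξ n) := by
    simp only [Subgroup.coe_inv, sg, gen, cc_inv, cc_apply]
  rw [h3, ξ, ccF_replicate, ccF_ne (by simp [z, od_ne])]
  simp [lamp, fl, od_ne]

theorem exists_harmonic : ∃ u : Γ → ℝ, (∀ g, u g = ∑ i, 1 / 11 * u (g * sg i)) ∧
    (∀ g, |u g| ≤ 2) ∧ ∃ g h, u g ≠ u h := by
  classical
  let b : Γ → ℝ := fun g => if On g then -1 else 1
  have hb : ∀ g, |b g| = 1 := fun g => by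
    simp only [b]
    split_ifs <;> simp
  have hbt : ∀ g t, b (g * ⟨tr t, tr_mem t⟩) = b g := fun g t => by simp only [b, on_mul_tr]
  have hφt : ∀ g t, φ (g * ⟨tr t, tr_mem t⟩) = φ g + t := fun g t => by
    rw [φ_mul, φ_eq (g := ⟨tr t, tr_mem t⟩) (over_tr t)]
  have hφc : ∀ g, φ (g * sg none) = φ g := fun g => by
    rw [φ_mul, φ_eq (g := sg none) over_cc, add_zero]
  obtain ⟨u, hu, hub⟩ := exists_harmonic_near sg (1 / 11) (by norm_num) b
    (fun g => 3 * pot (φ g)) (fun g => by linarith [pot_pos (φ g)]) (fun g => by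
      have e1 : ∀ j, sg (some (j, true)) = ⟨tr (Pi.single j 1), tr_mem _⟩ := fun _ => rfl
      have e2 : ∀ j, sg (some (j, false)) = ⟨tr (Pi.single j (-1)), tr_mem _⟩ := fun _ => rfl
      simp only [Fintype.sum_option, Fintype.sum_prod_type, Fintype.sum_bool, e1, e2, hbt, hφt,
        hφc, Finset.sum_const, Finset.card_univ, Fintype.card_fin, nsmul_eq_mul,
        ← Finset.mul_sum]
      by_cases h0 : φ g = 0
      · simp only [h0, zero_add, pot_zero, pot_single _ 1 (by norm_num),
          pot_single _ (-1) (by norm_num), Finset.sum_const, Finset.card_univ, Fintype.card_fin,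
          nsmul_eq_mul]
        have h1 := abs_le.1 (hb g).le
        have h2 := abs_le.1 (hb (g * sg none)).le
        rw [abs_le]
        push_cast
        constructor <;> linarith [h1.1, h1.2, h2.1, h2.2]
      · have h1 : b (g * sg none) = b g := by simp only [b, on_mul_cc g h0]
        have h2 := pot_superharmonic (φ g)
        rw [h1]
        push_cast
        rw [show 1 / 11 * (b g + 5 * (b g + b g)) - b g = 0 by ring, abs_zero]
        linarith)
  have hpot : ∀ t, pot t ≤ 1 / 3 := fun t =>
    one_div_le_one_div_of_le (by norm_num) (le_add_of_nonneg_right (by positivity))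
  refine ⟨u, hu, fun g => ?_, 1 * ⟨tr (Pi.single 0 1), tr_mem _⟩,
    sg none * ⟨tr (Pi.single 0 1), tr_mem _⟩, ?_⟩
  · have h1 := abs_le.1 (hub g)
    have h2 := abs_le.1 (hb g).le
    have h3 := hpot (φ g)
    rw [abs_le]
    constructor <;> linarith [h1.1, h1.2, h2.1, h2.2]
  · have h1 := abs_le.1 (hub (1 * ⟨tr (Pi.single 0 1), tr_mem _⟩))
    have h2 := abs_le.1 (hub (sg none * ⟨tr (Pi.single 0 1), tr_mem _⟩))
    have h3 : φ 1 = 0 := φ_eq fun w => by rw [trF_zero]; rfl
    have h4 : φ (sg none) = 0 := φ_eq over_cc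
    rw [hbt, hφt] at h1 h2
    rw [h3, zero_add, pot_single _ 1 (by norm_num)] at h1
    rw [h4, zero_add, pot_single _ 1 (by norm_num)] at h2
    simp only [b, if_neg not_on_one] at h1
    simp only [b, if_pos on_cc] at h2
    intro h
    linarith [h1.1, h2.2]

end Pool.Agent.MP_684c87_al
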